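import Mathlib

namespace Pool.Agent.Results.MP_f90694_nt.Regular

/-- The defining recurrence of the meta-Fibonacci sequence `h : ℤ → ℤ`. -/
def Rec (h : ℤ → ℤ) : Prop :=
  (∀ n, n ≤ 1 → h n = 1) ∧ ∀ n, 1 < n → h n = h (n - h (n - 1)) + h (n - 2)

/-- `u h i` enumerates in increasing order the `m ∈ ℕ` with `h m ≡ i (mod 2)`. -/
noncomputable def u (h : ℤ → ℤ) (i : ℤ) (n : ℕ) : ℤ :=
  Nat.nth (fun m : ℕ => h m % 2 = i) n

/-- The `k`-kernel of an integer sequence. -/
def kernel (k : ℕ) (a : ℕ → ℤ) : Set (ℕ → ℤ) :=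
  {f | ∃ j c : ℕ, c < k ^ j ∧ f = fun n => a (k ^ j * n + c)}

/-- `a` is `k`-regular: the `ℤ`-span of its `k`-kernel is finitely generated. -/
def IsRegularSeq (k : ℕ) (a : ℕ → ℤ) : Prop := (Submodule.span ℤ (kernel k a)).FG

lemma basic {h : ℤ → ℤ} (H : Rec h) (n : ℕ) :
    (∀ m : ℕ, 2 ≤ m → m ≤ 2 * n + 2 → 2 ≤ h m) ∧ h (2 * n + 1) = n + 1 ∧
      h (2 * n + 2) = h (2 * n) + h (n + 1) ∧ 2 * n + 2 ≤ h (2 * n + 2) := by
  obtain ⟨H1, H2⟩ := H
  induction n with
  | zero =>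
    have h2 : h 2 = 2 := by
      rw [H2 2 (by norm_num)]
      norm_num [H1 1 le_rfl, H1 0 (by norm_num)]
    refine ⟨fun m h1 h3 => ?_, ?_, ?_, ?_⟩
    · have : m = 2 := by omega
      subst this
      exact h2.ge
    · simpa using H1 1 le_rfl
    · simp [h2, H1 1 le_rfl, H1 0 (by norm_num)]
    · simp [h2]
  | succ n ih =>
    obtain ⟨a, b, c, d⟩ := ih
    have e1 : h (2 * n + 3) = n + 2 := by
      rw [H2 _ (by omega), show (2 * n + 3 - 1 : ℤ) = 2 * n + 2 by ring, H1 _ (by omega),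
        show (2 * n + 3 - 2 : ℤ) = 2 * n + 1 by ring, b]
      ring
    have e2 : h (2 * n + 4) = h (2 * n + 2) + h (n + 2) := by
      rw [H2 _ (by omega), show (2 * n + 4 - 1 : ℤ) = 2 * n + 3 by ring, e1,
        show (2 * n + 4 - 2 : ℤ) = 2 * n + 2 by ring,
        show (2 * n + 4 - (n + 2) : ℤ) = n + 2 by ring, add_comm]
    have e3 := a (n + 2) (by omega) (by omega)
    push_cast at e3 ⊢
    rw [show (2 * (n + 1) + 1 : ℤ) = 2 * n + 3 by ring,
      show (2 * (n + 1) + 2 : ℤ) = 2 * n + 4 by ring, show (2 * (n + 1) : ℤ) = 2 * n + 2 by ring,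
      show (n + 1 + 1 : ℤ) = n + 2 by ring]
    refine ⟨fun m h1 h3 => ?_, e1, e2, by omega⟩
    by_cases hm : m ≤ 2 * n + 2
    · exact a m h1 hm
    · have : (m : ℤ) = 2 * n + 3 ∨ (m : ℤ) = 2 * n + 4 := by omega
      rcases this with e | e <;> rw [e] <;> omega

def g : ℕ → ℤ
  | 0 => 1
  | 1 => 1
  | n + 2 => if n % 2 = 1 then (n + 3) / 2 else g n + g (n / 2 + 1)

lemma g_lb (n : ℕ) : 1 ≤ g n ∧ (2 ≤ n → 2 ≤ g n) ∧ (n % 2 = 0 → (n : ℤ) ≤ g n) := by
  induction n using Nat.strong_induction_on with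
  | _ n ih =>
    match n with
    | 0 => simp [g]
    | 1 => simp [g]
    | n + 2 =>
      have h1 := ih n (by omega)
      have h2 := ih (n / 2 + 1) (by omega)
      rw [g]
      split_ifs with hn
      · omega
      · by_cases h0 : n = 0
        · subst h0
          simp [g]
        · omega

lemma exists_rec : ∃ h, Rec h := by
  refine ⟨fun n => g n.toNat, fun n hn => ?_, fun n hn => ?_⟩
  · have : n.toNat = 0 ∨ n.toNat = 1 := by omega
    rcases this with e | e <;> simp [e, g]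
  · obtain ⟨m, rfl⟩ : ∃ m : ℕ, n = m + 2 := ⟨(n - 2).toNat, by omega⟩
    simp only []
    rw [show ((m : ℤ) + 2).toNat = m + 2 by omega, show ((m : ℤ) + 2 - 1).toNat = m + 1 by omega,
      show ((m : ℤ) + 2 - 2).toNat = m by omega, g]
    split_ifs with hm
    · have h1 := (g_lb (m + 1)).2.2 (by omega)
      have : ((m : ℤ) + 2 - g (m + 1)).toNat = 0 ∨ ((m : ℤ) + 2 - g (m + 1)).toNat = 1 := by omega
      have e : g ((m : ℤ) + 2 - g (m + 1)).toNat = 1 := by
        rcases this with e | e <;> simp [e, g]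
      rw [e]
      match m with
      | 0 => omega
      | 1 => simp [g]
      | m + 2 =>
        rw [g, if_pos (by omega)]
        omega
    · have e : g (m + 1) = m / 2 + 1 := by
        match m with
        | 0 => simp [g]
        | m + 1 =>
          rw [show m + 1 + 1 = m + 2 by ring, g, if_pos (by omega)]
          omega
      rw [e, show ((m : ℤ) + 2 - (m / 2 + 1)).toNat = m / 2 + 1 by omega, add_comm]

def tau (j : ℕ) : ℤ := if j % 4 = 1 ∨ j % 4 = 2 then 1 else 0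

section
variable {G : ℕ → ℤ} (o : ∀ n, G (2 * n + 1) = n + 1)
  (e : ∀ n, G (2 * n + 2) = G (2 * n) + G (n + 1))
include o e

lemma two (m : ℕ) : G (4 * m + 2) = G (4 * m) + (m + 1) := by
  have h1 := e (2 * m)
  rw [o] at h1
  rw [show 4 * m + 2 = 2 * (2 * m) + 2 by ring, h1, show 2 * (2 * m) = 4 * m by ring]

lemma key (j : ℕ) : G (4 * (2 * j)) % 2 = (G (4 * j) + tau j + j) % 2 ∧
    G (4 * (2 * j + 1)) % 2 = tau j := by
  have step : ∀ j : ℕ, G (4 * (2 * j)) % 2 = (G (4 * j) + tau j + j) % 2 →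
      G (4 * (2 * j + 1)) % 2 = tau j := by
    intro j h
    have h1 := two o e (2 * j)
    have h2 := two o e j
    have h3 := e (4 * j + 1)
    rw [show 2 * (4 * j + 1) + 2 = 4 * (2 * j + 1) by ring,
      show 2 * (4 * j + 1) = 4 * (2 * j) + 2 by ring, show 4 * j + 1 + 1 = 4 * j + 2 by ring] at h3
    unfold tau at *
    split_ifs at * <;> omega
  induction j with
  | zero =>
    have : G (4 * (2 * 0)) % 2 = (G (4 * 0) + tau 0 + (0 : ℕ)) % 2 := by simp [tau]
    exact ⟨this, step 0 this⟩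
  | succ j ih =>
    have : G (4 * (2 * (j + 1))) % 2 = (G (4 * (j + 1)) + tau (j + 1) + (j + 1 : ℕ)) % 2 := by
      have h1 := two o e (2 * j + 1)
      have h2 := ih.2
      have h3 := e (4 * j + 3)
      rw [show 2 * (4 * j + 3) + 2 = 4 * (2 * (j + 1)) by ring,
        show 2 * (4 * j + 3) = 4 * (2 * j + 1) + 2 by ring,
        show 4 * j + 3 + 1 = 4 * (j + 1) by ring] at h3
      unfold tau at *
      split_ifs at * <;> omega
    exact ⟨this, step _ this⟩

end

def beta (α : ℤ) (ρ q : ℕ) : ℤ :=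
  let w : ℕ → ℤ := fun l => if l = 0 then α + tau ρ else if l = 1 then ρ else
    if l = 2 then tau ρ + ρ else ρ + 1
  (if q % 2 = 1 then (((q + 1) / 2 : ℕ) : ℤ) else if q % 4 = 0 then w (q / 4)
    else w (q / 4) + (q / 4 : ℕ) + 1) % 2

section
variable {G : ℕ → ℤ} (o : ∀ n, G (2 * n + 1) = n + 1)
  (e : ∀ n, G (2 * n + 2) = G (2 * n) + G (n + 1))
include o e

lemma beta_eq (n q : ℕ) (hq : q < 16) : G (16 * n + q) % 2 = beta (G (4 * n) % 2) (n % 4) q := by
  by_cases h : q % 2 = 1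
  · rw [show 16 * n + q = 2 * (8 * n + q / 2) + 1 by omega, o]
    unfold beta
    simp only [if_pos h]
    omega
  obtain ⟨k1, k2⟩ := key o e n
  obtain ⟨k3, k4⟩ := key o e (2 * n)
  obtain ⟨k5, k6⟩ := key o e (2 * n + 1)
  have t0 := two o e (2 * (2 * n))
  have t1 := two o e (2 * (2 * n) + 1)
  have t2 := two o e (2 * (2 * n + 1))
  have t3 := two o e (2 * (2 * n + 1) + 1)
  simp only [show 4 * (2 * (2 * n)) = 16 * n + 0 by ring,
    show 4 * (2 * (2 * n) + 1) = 16 * n + 4 by ring,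
    show 4 * (2 * (2 * n + 1)) = 16 * n + 8 by ring,
    show 4 * (2 * (2 * n + 1) + 1) = 16 * n + 12 by ring, add_assoc, Nat.reduceAdd] at *
  unfold tau at *
  interval_cases q <;> simp only [beta, tau] <;> norm_num at * <;> split_ifs at * <;> omega

end

lemma beta_cnt : ∀ i ∈ [(0 : ℤ), 1], ∀ α ∈ [(0 : ℤ), 1], ∀ ρ < 4,
    Nat.count (fun q => beta α ρ q = i) 16 = 8 ∧
    ∀ c < 8, ∃ q < 16, beta α ρ q = i ∧ Nat.count (fun q => beta α ρ q = i) q = c := by
  decide +kernel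

def Good (G : ℕ → ℤ) (f : ℕ → ℤ) : Prop :=
  ∃ (A : ℤ) (F : ℤ → ℕ → ℤ), ∀ n, f n = A * n + F (G (4 * n) % 2) (n % 4)

section
variable {G : ℕ → ℤ} (o : ∀ n, G (2 * n + 1) = n + 1)
  (e : ∀ n, G (2 * n + 2) = G (2 * n) + G (n + 1))
include o e

lemma count_blk (i : ℤ) (n q : ℕ) (hq : q ≤ 16) :
    Nat.count (fun m => G m % 2 = i) (16 * n + q) = Nat.count (fun m => G m % 2 = i) (16 * n) +
      Nat.count (fun q => beta (G (4 * n) % 2) (n % 4) q = i) q := by
  induction q with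
  | zero => simp
  | succ q ih =>
    rw [← add_assoc, Nat.count_succ, Nat.count_succ, ih (by omega), beta_eq o e n q (by omega),
      add_assoc]

lemma good_base (i : ℤ) (hi : i ∈ [(0 : ℤ), 1]) (c : ℕ) (hc : c < 8) :
    Good G (fun n => (Nat.nth (fun m => G m % 2 = i) (8 * n + c) : ℤ)) := by
  have mem : ∀ n, G (4 * n) % 2 ∈ [(0 : ℤ), 1] := by
    intro n
    simp only [List.mem_cons, List.not_mem_nil, or_false]
    omega
  have cnt : ∀ n, Nat.count (fun m => G m % 2 = i) (16 * n) = 8 * n := by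
    intro n
    induction n with
    | zero => simp
    | succ n ih =>
      rw [mul_add, mul_one, count_blk o e i n 16 le_rfl, ih,
        (beta_cnt i hi _ (mem n) _ (Nat.mod_lt _ (by norm_num))).1]
      ring
  have h1 : ∀ (α : ℤ) (ρ : ℕ), ∃ q : ℕ, α ∈ [(0 : ℤ), 1] → ρ < 4 →
      q < 16 ∧ beta α ρ q = i ∧ Nat.count (fun q => beta α ρ q = i) q = c := by
    intro α ρ
    by_cases h : α ∈ [(0 : ℤ), 1] ∧ ρ < 4
    · obtain ⟨q, hq⟩ := (beta_cnt i hi α h.1 ρ h.2).2 c hc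
      exact ⟨q, fun _ _ => hq⟩
    · exact ⟨0, fun a b => absurd ⟨a, b⟩ h⟩
  choose F hF using h1
  refine ⟨16, fun α ρ => F α ρ, fun n => ?_⟩
  obtain ⟨q1, q2, q3⟩ := hF _ _ (mem n) (Nat.mod_lt n (by norm_num))
  have := Nat.nth_count (p := fun m => G m % 2 = i) (n := 16 * n + F (G (4 * n) % 2) (n % 4))
    (by rw [beta_eq o e n _ q1, q2])
  rw [count_blk o e i n _ q1.le, cnt, q3] at this
  simp only [this]
  push_cast
  ring

lemma good_step (f : ℕ → ℤ) (hf : Good G f) (b : ℕ) (hb : b < 2) :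
    Good G (fun n => f (2 * n + b)) := by
  obtain ⟨A, F, hF⟩ := hf
  have tm : ∀ n, tau (n % 4) = tau n := fun n => by simp [tau]
  interval_cases b
  · refine ⟨2 * A, fun α ρ => F ((α + tau ρ + ρ) % 2) (2 * ρ % 4), fun n => ?_⟩
    simp only [hF, add_zero, (key o e n).1, tm]
    rw [show (G (4 * n) % 2 + tau n + (n % 4 : ℕ)) % 2 = (G (4 * n) + tau n + n) % 2 by omega,
      show 2 * (n % 4) % 4 = 2 * n % 4 by omega]
    push_cast
    ring
  · refine ⟨2 * A, fun α ρ => A + F (tau ρ) ((2 * ρ + 1) % 4), fun n => ?_⟩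
    simp only [hF, (key o e n).2, tm]
    rw [show (2 * (n % 4) + 1) % 4 = (2 * n + 1) % 4 by omega]
    push_cast
    ring

lemma good_ker (j : ℕ) : ∀ f : ℕ → ℤ, Good G f → ∀ c < 2 ^ j,
    Good G (fun n => f (2 ^ j * n + c)) := by
  induction j with
  | zero =>
    intro f hf c hc
    have : c = 0 := by omega
    subst this
    simpa using hf
  | succ j ih =>
    intro f hf c hc
    have p : 2 ^ (j + 1) = 2 * 2 ^ j := by ring
    have := ih _ (good_step o e f hf (c % 2) (Nat.mod_lt _ (by norm_num))) (c / 2) (by omega)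
    have e2 : ∀ n, 2 ^ (j + 1) * n + c = 2 * (2 ^ j * n + c / 2) + c % 2 := by
      intro n
      rw [p, mul_add, mul_assoc]
      omega
    simp only [e2]
    exact this

end

def ind (G : ℕ → ℤ) (p : Fin 2 × Fin 4) : ℕ → ℤ :=
  fun n => if G (4 * n) % 2 = p.1.val ∧ n % 4 = p.2.val then 1 else 0

lemma good_mem (G f : ℕ → ℤ) (hf : Good G f) (S : Set (ℕ → ℤ)) :
    f ∈ Submodule.span ℤ (insert (fun n : ℕ => (n : ℤ)) (Set.range (ind G)) ∪ S) := by
  obtain ⟨A, F, hF⟩ := hf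
  have : f = A • (fun n : ℕ => (n : ℤ)) + ∑ p : Fin 2 × Fin 4, F p.1.val p.2.val • ind G p := by
    funext n
    rw [hF n]
    simp only [Pi.add_apply, Pi.smul_apply, smul_eq_mul, ind,
      Fintype.sum_prod_type, Fin.sum_univ_two, Fin.sum_univ_four]
    have h1 : G (4 * n) % 2 = 0 ∨ G (4 * n) % 2 = 1 := by omega
    have h2 : n % 4 = 0 ∨ n % 4 = 1 ∨ n % 4 = 2 ∨ n % 4 = 3 := by omega
    rcases h1 with h1 | h1 <;> rcases h2 with h2 | h2 | h2 | h2 <;> simp [h1, h2]
  rw [this]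
  refine Submodule.add_mem _ (Submodule.smul_mem _ _ (Submodule.subset_span (by simp)))
    (Submodule.sum_mem _ fun p _ => Submodule.smul_mem _ _ (Submodule.subset_span (by simp)))

theorem result : (∃ h, Rec h) ∧
    ∀ h, Rec h → IsRegularSeq 2 (u h 0) ∧ IsRegularSeq 2 (u h 1) := by
  refine ⟨exists_rec, fun h H => ?_⟩
  have o : ∀ n : ℕ, h ((2 * n + 1 : ℕ) : ℤ) = n + 1 := fun n => by
    push_cast
    exact (basic H n).2.1
  have e : ∀ n : ℕ, h ((2 * n + 2 : ℕ) : ℤ) = h ((2 * n : ℕ) : ℤ) + h ((n + 1 : ℕ) : ℤ) :=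
    fun n => by
      push_cast
      exact (basic H n).2.2.1
  have main : ∀ i ∈ [(0 : ℤ), 1], IsRegularSeq 2 (u h i) := by
    intro i hi
    let S : Set (ℕ → ℤ) :=
      Set.range fun p : Fin 3 × Fin 4 => fun n => u h i (2 ^ p.1.val * n + p.2.val)
    refine Submodule.FG.of_le (Submodule.fg_span (s := insert (fun n : ℕ => (n : ℤ))
      (Set.range (ind fun m : ℕ => h m)) ∪ S)
      (((Set.finite_range _).insert _).union (Set.finite_range _))) (Submodule.span_le.mpr ?_)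
    rintro f ⟨j, c, hc, rfl⟩
    by_cases hj : j < 3
    · have : 2 ^ j ≤ 2 ^ 2 := Nat.pow_le_pow_right (by norm_num) (by omega)
      exact Submodule.subset_span (Or.inr ⟨(⟨j, hj⟩, ⟨c, by omega⟩), rfl⟩)
    · obtain ⟨l, rfl⟩ : ∃ l, j = l + 3 := ⟨j - 3, by omega⟩
      have p : 2 ^ (l + 3) = 8 * 2 ^ l := by ring
      have := good_ker (G := fun m : ℕ => h m) o e l _
        (good_base o e i hi (c % 8) (Nat.mod_lt _ (by norm_num))) (c / 8) (by omega)
      have e2 : ∀ n, 2 ^ (l + 3) * n + c = 8 * (2 ^ l * n + c / 8) + c % 8 := by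
        intro n
        rw [p, mul_add, mul_assoc]
        omega
      apply good_mem
      simp only [e2]
      exact this
  exact ⟨main 0 (by simp), main 1 (by simp)⟩

end Pool.Agent.Results.MP_f90694_nt.Regular
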